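import Pool.Agent.W845.DH.Stm

set_option autoImplicit false
open scoped Classical

namespace Pool.Agent.W63.DH

open Pool.Agent.W845.DH

theorem mem_cls {V : Type} [Fintype V] (τ : Equiv.Perm V) (v w : V) :
    w ∈ cls τ v ↔ τ.SameCycle v w := by
  simp [cls]

theorem cls_eq {V : Type} [Fintype V] (τ : Equiv.Perm V) (v w : V) (h : τ.SameCycle v w) :
    cls τ v = cls τ w := by
  ext x
  rw [mem_cls, mem_cls]
  exact ⟨fun hx => h.symm.trans hx, fun hx => h.trans hx⟩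

theorem cls_disj {V : Type} [Fintype V] (τ : Equiv.Perm V) (v w : V) (h : cls τ v ≠ cls τ w) :
    Disjoint (cls τ v) (cls τ w) := by
  rw [Finset.disjoint_left]
  intro x hx hy
  rw [mem_cls] at hx hy
  exact h (cls_eq τ v w (hx.trans hy.symm))

/-- More cycles than `1 / θ + 1` give two short ones. -/
theorem two_small {V : Type} [Fintype V] (τ : Equiv.Perm V) (θ : ℝ) (hθ : 0 < θ) (C : ℕ)
    (hC : 1 / θ + 1 ≤ (C : ℝ)) (h : C < nc τ) :
    ∃ u u' : V, ¬ τ.SameCycle u u' ∧ ((cls τ u).card : ℝ) ≤ θ * Fintype.card V ∧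
      ((cls τ u').card : ℝ) ≤ θ * Fintype.card V := by
  set I : Finset (Finset V) := Finset.univ.image (cls τ) with hI
  have hIc : C < I.card := h
  have hne : I.Nonempty := Finset.card_pos.mp (by omega)
  obtain ⟨c0, hc0⟩ := hne
  obtain ⟨v0, -, -⟩ := Finset.mem_image.mp hc0
  have hn : (0 : ℝ) < (Fintype.card V : ℝ) := by
    have : 0 < Fintype.card V := Fintype.card_pos_iff.mpr ⟨v0⟩
    exact_mod_cast this
  set B : Finset (Finset V) := I.filter (fun c => θ * (Fintype.card V : ℝ) < (c.card : ℝ)) with hB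
  set S : Finset (Finset V) := I.filter (fun c => ¬ θ * (Fintype.card V : ℝ) < (c.card : ℝ))
    with hS
  have hsum : B.card + S.card = I.card := Finset.card_filter_add_card_filter_not _
  have hdis : ∀ a ∈ B, ∀ b ∈ B, a ≠ b → Disjoint a b := by
    intro a ha b hb hab
    obtain ⟨va, -, rfl⟩ := Finset.mem_image.mp (Finset.mem_filter.mp ha).1
    obtain ⟨vb, -, rfl⟩ := Finset.mem_image.mp (Finset.mem_filter.mp hb).1
    exact cls_disj τ va vb hab
  have hBn : ∑ c ∈ B, c.card ≤ Fintype.card V := by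
    rw [← Finset.card_biUnion (s := B) (t := fun c => c) hdis]
    exact Finset.card_le_univ _
  have hBn' : (B.card : ℝ) * (θ * (Fintype.card V : ℝ)) ≤ (Fintype.card V : ℝ) := by
    calc (B.card : ℝ) * (θ * (Fintype.card V : ℝ))
        = ∑ _c ∈ B, (θ * (Fintype.card V : ℝ)) := by rw [Finset.sum_const, nsmul_eq_mul]
      _ ≤ ∑ c ∈ B, (c.card : ℝ) :=
          Finset.sum_le_sum (fun c hc => (Finset.mem_filter.mp hc).2.le)
      _ = ((∑ c ∈ B, c.card : ℕ) : ℝ) := by push_cast; rfl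
      _ ≤ (Fintype.card V : ℝ) := by exact_mod_cast hBn
  have hB1 : (B.card : ℝ) ≤ 1 / θ := by
    rw [le_div_iff₀ hθ]
    have h1 : (B.card : ℝ) * θ * (Fintype.card V : ℝ) ≤ 1 * (Fintype.card V : ℝ) := by
      rw [one_mul, mul_assoc]; exact hBn'
    exact le_of_mul_le_mul_right h1 hn
  have hS1 : 1 < S.card := by
    have h1 : (C : ℝ) < (I.card : ℝ) := by exact_mod_cast hIc
    have h2 : (B.card : ℝ) + (S.card : ℝ) = (I.card : ℝ) := by exact_mod_cast hsum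
    have h3 : (1 : ℝ) < (S.card : ℝ) := by linarith
    exact_mod_cast h3
  obtain ⟨a, ha, b, hb, hab⟩ := Finset.one_lt_card.mp hS1
  obtain ⟨haI, ha2⟩ := Finset.mem_filter.mp ha
  obtain ⟨hbI, hb2⟩ := Finset.mem_filter.mp hb
  obtain ⟨u, -, rfl⟩ := Finset.mem_image.mp haI
  obtain ⟨u', -, rfl⟩ := Finset.mem_image.mp hbI
  exact ⟨u, u', fun hs => hab (cls_eq τ u u' hs), not_lt.mp ha2, not_lt.mp hb2⟩

/-- A 1-factor with the smallest number of cycles. -/
theorem exists_opt {V : Type} [Fintype V] (D : V → V → Prop)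
    (h : ∃ σ : Equiv.Perm V, ∀ v, D v (σ v)) : ∃ σ : Equiv.Perm V, Opt D σ := by
  obtain ⟨σ0, h0⟩ := h
  have hne : (Finset.univ.filter (fun σ : Equiv.Perm V => ∀ v, D v (σ v))).Nonempty :=
    ⟨σ0, by simp only [Finset.mem_filter, Finset.mem_univ, true_and]; exact h0⟩
  obtain ⟨σ, hσ, hmin⟩ := Finset.exists_min_image _ nc hne
  simp only [Finset.mem_filter, Finset.mem_univ, true_and] at hσ hmin
  exact ⟨σ, hσ, hmin⟩

/-- The pairs `(x, y)` in `X × Y` with `D x (σ y)` outside a small set. -/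
theorem many_pairs {V : Type} [Fintype V] (D : V → V → Prop) (σ : Equiv.Perm V) (γ θ : ℝ)
    (X Y Z : Finset V) (hR : Rob γ D) (hZ : (Z.card : ℝ) ≤ 2 * θ * Fintype.card V)
    (hX : (1 / 2 - γ) * (Fintype.card V : ℝ) ≤ (X.card : ℝ))
    (hY : (1 / 2 - γ) * (Fintype.card V : ℝ) ≤ (Y.card : ℝ)) :
    (γ - 4 * θ) * (Fintype.card V : ℝ) ^ 2 ≤ ((((X ×ˢ Y).filter (fun e => D e.1 (σ e.2))).filter
      (fun e => e.1 ∉ Z ∧ e.2 ∉ Z)).card : ℝ) := by
  have hYc : (Y.image σ).card = Y.card := Finset.card_image_of_injective _ σ.injective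
  have h1 := hR X (Y.image σ) hX (by rw [hYc]; exact hY)
  set P : Finset (V × V) := (X ×ˢ Y).filter (fun e => D e.1 (σ e.2)) with hP
  have h2 : ee D X (Y.image σ) ≤ P.card := by
    unfold ee
    apply Finset.card_le_card_of_injOn (fun e => (e.1, σ.symm e.2))
    · intro e he
      simp only [Finset.coe_filter, Finset.mem_product, Finset.mem_image, Set.mem_setOf_eq] at he
      obtain ⟨⟨hx, y, hy, hyz⟩, hd⟩ := he
      simp only [hP, Finset.coe_filter, Finset.mem_product, Set.mem_setOf_eq]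
      refine ⟨⟨hx, ?_⟩, ?_⟩
      · rw [← hyz, Equiv.symm_apply_apply]; exact hy
      · rw [Equiv.apply_symm_apply]; exact hd
    · intro e _ f _ hef
      simp only [Prod.mk.injEq, EmbeddingLike.apply_eq_iff_eq] at hef
      exact Prod.ext hef.1 hef.2
  have h3 : P.card ≤ (P.filter (fun e => e.1 ∉ Z ∧ e.2 ∉ Z)).card +
      ((Z ×ˢ (Finset.univ : Finset V)).card + ((Finset.univ : Finset V) ×ˢ Z).card) := by
    calc P.card ≤ (P.filter (fun e => e.1 ∉ Z ∧ e.2 ∉ Z) ∪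
          (Z ×ˢ (Finset.univ : Finset V) ∪ (Finset.univ : Finset V) ×ˢ Z)).card := by
            apply Finset.card_le_card
            intro e he
            simp only [Finset.mem_union, Finset.mem_filter, Finset.mem_product, Finset.mem_univ,
              and_true, true_and]
            by_cases h1 : e.1 ∈ Z
            · exact Or.inr (Or.inl h1)
            · by_cases h2 : e.2 ∈ Z
              · exact Or.inr (Or.inr h2)
              · exact Or.inl ⟨he, h1, h2⟩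
      _ ≤ _ := (Finset.card_union_le _ _).trans
            (Nat.add_le_add_left (Finset.card_union_le _ _) _)
  rw [Finset.card_product, Finset.card_product, Finset.card_univ] at h3
  have h4 : (P.card : ℝ) ≤ ((P.filter (fun e => e.1 ∉ Z ∧ e.2 ∉ Z)).card : ℝ) +
      ((Z.card : ℝ) * (Fintype.card V : ℝ) + (Fintype.card V : ℝ) * (Z.card : ℝ)) := by
    exact_mod_cast h3
  have h5 : (ee D X (Y.image σ) : ℝ) ≤ (P.card : ℝ) := by exact_mod_cast h2
  have hn : (0 : ℝ) ≤ (Fintype.card V : ℝ) := Nat.cast_nonneg _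
  have h6 : (Z.card : ℝ) * (Fintype.card V : ℝ) ≤
      2 * θ * Fintype.card V * (Fintype.card V : ℝ) := mul_le_mul_of_nonneg_right hZ hn
  nlinarith [h1, h4, h5, h6]

theorem few : S_FAC → S_FW1 → S_FW2 → S_SEP → S_K23 → S_FEW := by
  intro hFAC hFW1 hFW2 hSEP hK23 γ hγ hγ4
  obtain ⟨N, hN⟩ := hK23 (γ / 2) (by linarith)
  refine ⟨γ / 16, ⌈16 / γ⌉₊ + 1, N, by positivity, ?_⟩
  intro V _ D hNV hDeg hRob
  have hn : (0 : ℝ) ≤ (Fintype.card V : ℝ) := Nat.cast_nonneg _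
  have hDegγ : Deg ((1 / 2 - γ) * (Fintype.card V : ℝ)) D := by
    intro v
    have h1 := hDeg v
    have h2 : (1 / 2 - γ) * (Fintype.card V : ℝ) ≤ (1 / 2 - γ / 16) * (Fintype.card V : ℝ) :=
      mul_le_mul_of_nonneg_right (by linarith) hn
    exact ⟨h2.trans h1.1, h2.trans h1.2⟩
  obtain ⟨σ, hσ⟩ := exists_opt D (hFAC V γ D hγ.le hDegγ hRob)
  refine ⟨σ, hσ.1, ?_⟩
  by_contra hlt
  have hlt : ⌈16 / γ⌉₊ + 1 < nc σ := not_le.mp hlt
  obtain ⟨u, u', huu, hcu, hcu'⟩ := two_small σ (γ / 16) (by positivity) (⌈16 / γ⌉₊ + 1) (by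
    push_cast
    have h1 : 1 / (γ / 16) = 16 / γ := by field_simp
    rw [h1]
    linarith [Nat.le_ceil (16 / γ)]) hlt
  obtain ⟨hA, hX, hY⟩ := hFW1 V D σ (γ / 16) (γ / 16) u u' hσ hDeg huu hcu hcu'
  set X : Finset V := Finset.univ.filter (fun w => D u (σ w) ∧ D u' (σ w)) with hXdef
  set Y : Finset V := Finset.univ.filter (fun w => D w (σ u) ∧ D w (σ u')) with hYdef
  have hle : (1 / 2 - γ) * (Fintype.card V : ℝ) ≤
      (1 / 2 - 3 * (γ / 16) - 3 * (γ / 16)) * (Fintype.card V : ℝ) :=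
    mul_le_mul_of_nonneg_right (by linarith) hn
  have hZ : (((cls σ u) ∪ (cls σ u')).card : ℝ) ≤ 2 * (γ / 16) * Fintype.card V := by
    have h1 : (((cls σ u) ∪ (cls σ u')).card : ℝ) ≤ ((cls σ u).card : ℝ) + ((cls σ u').card : ℝ) := by
      exact_mod_cast Finset.card_union_le _ _
    linarith
  have hE := many_pairs D σ γ (γ / 16) X Y (cls σ u ∪ cls σ u') hRob hZ (hle.trans hX)
    (hle.trans hY)
  set E : Finset (V × V) := ((X ×ˢ Y).filter (fun e => D e.1 (σ e.2))).filter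
      (fun e => e.1 ∉ cls σ u ∪ cls σ u' ∧ e.2 ∉ cls σ u ∪ cls σ u') with hEdef
  have hmemE : ∀ x y : V, (x, y) ∈ E → (D u (σ x) ∧ D u' (σ x)) ∧ (D y (σ u) ∧ D y (σ u')) ∧
      D x (σ y) ∧ ¬ σ.SameCycle u x ∧ ¬ σ.SameCycle u' x ∧ ¬ σ.SameCycle u y ∧
      ¬ σ.SameCycle u' y := by
    intro x y hxy
    rw [hEdef] at hxy
    simp only [Finset.mem_filter, Finset.mem_product, hXdef, hYdef, Finset.mem_univ, true_and,
      Finset.mem_union, mem_cls, not_or] at hxy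
    tauto
  have hEc : γ / 2 * (Fintype.card V : ℝ) ^ 2 ≤ (E.card : ℝ) := by
    refine le_trans (mul_le_mul_of_nonneg_right ?_ (sq_nonneg _)) hE
    linarith
  obtain ⟨x, x', w, hxx, hw, hwE⟩ := hN V E hNV hEc
  obtain ⟨hP1, hP2⟩ := hFW2 V D σ hσ
  have hsc : ∀ i, σ.SameCycle x (w i) := by
    intro i
    obtain ⟨⟨a1, a2⟩, ⟨b1, b2⟩, c, d1, d2, d3, d4⟩ := hmemE _ _ (hwE i).1
    exact hP1 u x (w i) a1 c b1 d1 d3
  have hsc' : ∀ i, σ.SameCycle x' (w i) := by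
    intro i
    obtain ⟨⟨a1, a2⟩, ⟨b1, b2⟩, c, d1, d2, d3, d4⟩ := hmemE _ _ (hwE i).2
    exact hP1 u x' (w i) a1 c b1 d1 d3
  have hxs : σ.SameCycle x x' := (hsc 0).trans (hsc' 0).symm
  have hwx : ∀ i, w i ≠ x ∧ w i ≠ x' := by
    intro i
    obtain ⟨⟨a1, a2⟩, ⟨b1, b2⟩, c, d1, d2, d3, d4⟩ := hmemE _ _ (hwE i).1
    obtain ⟨⟨a1', a2'⟩, ⟨b1', b2'⟩, c', d1', d2', d3', d4'⟩ := hmemE _ _ (hwE i).2
    constructor
    · intro h
      exact d1 (hA x a1 (h ▸ b1))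
    · intro h
      exact d1' (hA x' a1' (h ▸ b1))
  obtain ⟨i, j, hij, hns⟩ := hSEP V σ x x' w hxx hw hwx hxs hsc
  apply hns
  obtain ⟨⟨a1, a2⟩, ⟨b1, b2⟩, c, d1, d2, d3, d4⟩ := hmemE _ _ (hwE i).1
  obtain ⟨⟨a1', a2'⟩, ⟨b1', b2'⟩, c', d1', d2', d3', d4'⟩ := hmemE _ _ (hwE j).2
  exact hP2 u u' x (w i) x' (w j) a1 c b1 a2' c' b2' huu d1 d2 (hsc i) hxs (hsc j) hxx
    (fun h => hij (hw h)) (fun h => (hwx i).1 h.symm) (fun h => (hwx j).1 h.symm)
    (fun h => (hwx i).2 h.symm) (fun h => (hwx j).2 h.symm)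

end Pool.Agent.W63.DH
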